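import Pool.Agent.Helper9_CG.Stmt

/-!
# CG: module CONN (helper24)

The number of the connected sets of `t + 1` vertices through a given vertex.
-/

set_option autoImplicit false

namespace Pool.Agent.CG.H24

open SimpleGraph Pool.Agent.LAG Pool.Agent.LLG Pool.Agent.CG

/-- the lists of the vertices (without the first) of the walks of length `n` from `u` -/
def wl {W : Type} (Γ : SimpleGraph W) (n : ℕ) (u : W) : Set (List W) :=
  {l | l.length = n ∧ List.IsChain Γ.Adj (u :: l)}

lemma wl_count {W : Type} [Fintype W] (Γ : SimpleGraph W) (k : ℕ)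
    (hk : ∀ v, (Γ.neighborSet v).ncard ≤ k) : ∀ (n : ℕ) (u : W),
    (wl Γ n u).Finite ∧ (wl Γ n u).ncard ≤ k ^ n := by
  classical
  intro n
  induction n with
  | zero =>
    intro u
    have e : wl Γ 0 u = {[]} := by
      ext l
      simp only [wl, Set.mem_ofPred_eq, Set.mem_singleton_iff, List.length_eq_zero_iff]
      constructor
      · exact fun h => h.1
      · rintro rfl
        exact ⟨rfl, List.IsChain.singleton _⟩
    rw [e]
    exact ⟨Set.finite_singleton _, by simp⟩
  | succ n ih =>
    intro u
    have e : wl Γ (n + 1) u = ⋃ v ∈ (Γ.neighborSet u).toFinite.toFinset, (v :: ·) '' wl Γ n v := by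
      ext l
      simp only [wl, Set.mem_ofPred_eq, Set.mem_iUnion, Set.Finite.mem_toFinset, mem_neighborSet,
        Set.mem_image, exists_prop]
      constructor
      · rintro ⟨h1, h2⟩
        rcases l with _ | ⟨v, l⟩
        · simp at h1
        · rw [List.isChain_cons_cons] at h2
          exact ⟨v, h2.1, l, ⟨by simpa using h1, h2.2⟩, rfl⟩
      · rintro ⟨v, hv, l, ⟨h1, h2⟩, rfl⟩
        exact ⟨by simp [h1], List.isChain_cons_cons.2 ⟨hv, h2⟩⟩
    have hf : ∀ v, ((v :: ·) '' wl Γ n v).Finite := fun v => (ih v).1.image _
    rw [e]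
    refine ⟨Set.Finite.biUnion (Finset.finite_toSet _) fun v _ => hf v, ?_⟩
    refine (Finset.set_ncard_biUnion_le _ _).trans ?_
    refine (Finset.sum_le_sum fun v _ => (Set.ncard_image_le (ih v).1).trans (ih v).2).trans ?_
    rw [Finset.sum_const, smul_eq_mul, pow_succ', ← Set.ncard_eq_toFinset_card]
    exact Nat.mul_le_mul_right _ (hk u)

lemma cover {W : Type} [Fintype W] [DecidableEq W] (Γ : SimpleGraph W) (K : Finset W) (t : ℕ)
    (u : W) (hu : u ∈ K) (hK : K.card = t + 1) (hc : (Γ.induce (K : Set W)).Connected) :
    ∀ j ≤ t, ∃ p : Γ.Walk u u, p.length = 2 * j ∧ p.support.toFinset ⊆ K ∧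
      p.support.toFinset.card = j + 1 := by
  intro j
  induction j with
  | zero =>
    intro _
    exact ⟨Walk.nil, rfl, by simpa using hu, by simp⟩
  | succ j ih =>
    intro hj
    obtain ⟨p, h1, h2, h3⟩ := ih (by omega)
    obtain ⟨y0, hy0, hy0'⟩ : ∃ y ∈ K, y ∉ p.support.toFinset := by
      by_contra hne
      push Not at hne
      have := Finset.card_le_card (show K ⊆ p.support.toFinset from hne)
      omega
    obtain ⟨q⟩ := hc.preconnected (⟨u, hu⟩ : (K : Set W)) ⟨y0, hy0⟩
    obtain ⟨d, -, hd1, hd2⟩ := q.exists_boundary_dart {z | (z : W) ∈ p.support.toFinset}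
      (by simp) hy0'
    have hadj : Γ.Adj d.fst.1 d.snd.1 := d.adj
    have hx : d.fst.1 ∈ p.support := by simpa using hd1
    have hy : d.snd.1 ∉ p.support := by simpa using hd2
    refine ⟨(p.takeUntil _ hx).append (Walk.cons hadj (Walk.cons hadj.symm (p.dropUntil _ hx))),
      ?_, ?_, ?_⟩
    · have := congrArg Walk.length (p.take_spec hx)
      rw [Walk.length_append] at this
      rw [Walk.length_append, Walk.length_cons, Walk.length_cons]
      omega
    · intro z hz
      rw [List.mem_toFinset, Walk.mem_support_append_iff, Walk.support_cons, Walk.support_cons,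
        List.mem_cons, List.mem_cons] at hz
      rcases hz with hz | rfl | rfl | hz
      · exact h2 (List.mem_toFinset.2 (p.support_takeUntil_subset_support hx hz))
      · exact d.fst.2
      · exact d.snd.2
      · exact h2 (List.mem_toFinset.2 (p.support_dropUntil_subset_support hx hz))
    · have e : ((p.takeUntil _ hx).append
          (Walk.cons hadj (Walk.cons hadj.symm (p.dropUntil _ hx)))).support.toFinset =
          insert d.snd.1 p.support.toFinset := by
        ext z
        rw [List.mem_toFinset, Walk.mem_support_append_iff, Walk.support_cons, Walk.support_cons,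
          List.mem_cons, List.mem_cons, Finset.mem_insert, List.mem_toFinset]
        constructor
        · rintro (hz | rfl | rfl | hz)
          · exact Or.inr (p.support_takeUntil_subset_support hx hz)
          · exact Or.inr hx
          · exact Or.inl rfl
          · exact Or.inr (p.support_dropUntil_subset_support hx hz)
        · rintro (rfl | hz)
          · exact Or.inr (Or.inr (Or.inl rfl))
          · rw [← p.take_spec hx, Walk.mem_support_append_iff] at hz
            rcases hz with hz | hz
            · exact Or.inl hz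
            · exact Or.inr (Or.inr (Or.inr hz))
      rw [e, Finset.card_insert_of_notMem (by simpa using hy), h3]

theorem conn : ConnStmt := by
  classical
  intro W _ _ Γ k t u hk
  obtain ⟨hf, hn⟩ := wl_count Γ k hk (2 * t) u
  have hsub : {K : Finset W | u ∈ K ∧ K.card = t + 1 ∧ (Γ.induce (K : Set W)).Connected} ⊆
      (fun l : List W => (u :: l).toFinset) '' wl Γ (2 * t) u := by
    rintro K ⟨h1, h2, h3⟩
    obtain ⟨p, p1, p2, p3⟩ := cover Γ K t u h1 h2 h3 t le_rfl
    refine ⟨p.support.tail, ⟨?_, ?_⟩, ?_⟩
    · rw [List.length_tail, Walk.length_support, p1]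
      omega
    · rw [← Walk.support_eq_cons]
      exact p.isChain_adj_support
    · show (u :: p.support.tail).toFinset = K
      rw [← Walk.support_eq_cons]
      exact Finset.eq_of_subset_of_card_le p2 (by omega)
  exact (Set.ncard_le_ncard hsub (hf.image _)).trans ((Set.ncard_image_le hf).trans hn)

end Pool.Agent.CG.H24
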