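import Pool.Agent.Helper9_CG.Stmt

/-!
# CG: module TOPC (helper24)

The assembly: graphs of large constant girth.
-/

set_option autoImplicit false

namespace Pool.Agent.CG.H24

open SimpleGraph Pool.Agent.LAG Pool.Agent.LLG Pool.Agent.CG

lemma goodC_zero (g : ℕ) : GoodC 0 g := by
  intro V _ A R Q h
  have hR : R = ⊥ := by
    rw [eq_bot_iff]
    intro x y hxy
    have h1 := h.deg x
    have h2 : (R.neighborSet x).ncard ≠ 0 := by
      exact Set.ncard_ne_zero_of_mem (show y ∈ R.neighborSet x from hxy) (Set.toFinite _)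
    omega
  subst hR
  refine ⟨fun _ => ⊥, ⊥, fun i => i.elim0, le_rfl, ?_, ?_, ?_⟩
  · rw [sup_bot_eq]
    exact iSup_of_empty _
  · intro u v huv
    exact huv.elim
  · intro u v _ _ huv
    exact huv.elim

theorem topc (hS : StepcStmt) (hP : PullcStmt) (hB : BaseStmt) (hSt : StartStmt)
    (hN : NumrcStmt) (hBa : BalcStmt) (hSg : SgStmt) : TopcStmt := by
  obtain ⟨g0, Kc, hg0, hN⟩ := hN
  obtain ⟨h0, hh0⟩ : ∃ h0 : ℕ, 2 ^ 273 * (2 * Kc + 4) ^ 122 ≤ 3 ^ h0 :=
    ⟨2 ^ 273 * (2 * Kc + 4) ^ 122, (Nat.lt_pow_self (by norm_num)).le⟩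
  set h := g0 + h0 with hh
  have hg : 8000 ≤ 2 * h := by omega
  have key : ∀ k, GoodC k (2 * h) := by
    intro k
    induction k using Nat.strong_induction_on with
    | _ k ih =>
      rcases Nat.eq_zero_or_pos k with rfl | hk
      · exact goodC_zero _
      by_cases hK : Kc ≤ k
      · obtain ⟨T, hT, hR⟩ := hN k hK
        have hR' : NumRC k T (2 * h) := by
          obtain ⟨h2, s, c, j, b, d, w, h', N, n, hH, a, ℓ, Tm, L, Nc, η, M, h3, h4⟩ := hR
          exact ⟨h2, s, c, j, b, d, w, h', N, n, hH, a, ℓ, Tm, L, Nc, η, M, by omega, h4⟩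
        exact hP k (2 * h) hk (by omega) (hS k T (2 * h) hR' (ih _ (by omega)))
      · intro V _ A R Q hst
        refine hB k h 4 hk ?_ V A R _ (hBa V A R Q k (2 * h) (by omega) hst)
        calc 2 ^ 273 * (2 * k + 4) ^ 122 ≤ 2 ^ 273 * (2 * Kc + 4) ^ 122 := by
              exact Nat.mul_le_mul_left _ (Nat.pow_le_pow_left (by omega) _)
          _ ≤ 3 ^ h0 := hh0
          _ ≤ 3 ^ h := Nat.pow_le_pow_right (by norm_num) (by omega)
  refine ⟨2 * h, ?_⟩
  intro V _ G Δ hΔ hB'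
  exact hSt V G Δ (2 * h) hg hB' hΔ (hSg _ _ (by omega) (key _))

end Pool.Agent.CG.H24
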